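import Pool.Agent.CPW.F.Cm
import Pool.Agent.PCP.CompPT

/-!
# Package FBack: from machines to iterations

Use `exists_cm_halt`. Words over `Λ = Fin C.M0`; the word `y` of length `n` stands for the configuration
`val y p = y[p]` for `p < n`, `val y p = 0` for `p ≥ n` (cells behind the word are blank). Put
`F₀ x` = the cells `0, …, C.κ * (x.length + 1)` of `initc ini ks C.κ code x` (all further cells of `initc`
are `0`, see `compPT_initc`), `F₁ y` = the word of length `y.length + C.κ` with letters
`C.V p (val y 0) (val y (C.R p (val y 0)))` (one step), `Q y` = `¬ hlt (val y 0)`, `F₂ y` = the letters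
`dcd (val y (1 + i * C.κ + ko))` for `i <` the first `i` with value `none` (as `M₂, G₂` in the proof of
`Pool.Agent.PCP.iterRep_of_polyTime`, file `Pool/Agent/PCP/CompPT.lean`, where also the terms for `C.stk`,
`C.op`, `C.nx`, `C.R`, `C.V` are given). `hlt` is a condition on a value `< M0`, so it is in `UP` by
`UF.table`.

Invariant (induction on `i`): `val (F₁^[i] (F₀ x)) = C.step^[i] (initc … x)` as functions, and
`(F₁^[i] (F₀ x)).length = C.κ * (x.length + 1) + 1 + i * C.κ`: a step does not produce non-zero cells more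
than `C.κ` cells behind the last non-zero cell (`compPT_zero_step`: copy it, it is private; the word
always covers the cells `≤ C.κ * (x.length + i)`). Take `s = T`. If `dcd 0 ≠ none` the output would be
infinite; so `dcd 0 = none`, and the first `i` with `dcd (…) = none` is `(eb (f a)).length`, which is at
most the number of cells. Bounds: `s ≤ k₀ τ`, length `≤ C.κ (|x| + 1 + k₀ τ) + 1 ≤ c (|x| + τ + 1)`.
-/

set_option autoImplicit false

namespace Pool.Agent.CPW

open Turing Computability
open Pool.Agent.PT Pool.Agent.Book19 Pool.Agent.B7219d Pool.Agent.PCP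

/-- One step does not produce nonzero cells far away. -/
private theorem back_zero_step (C : CM) (c : ℕ → ℕ) (m : ℕ) (hc : ∀ p, C.κ * m < p → c p = 0) :
    ∀ p, C.κ * (m + 1) < p → C.step c p = 0 := by
  intro p hp
  have e : C.κ * (m + 1) = C.κ * m + C.κ := by ring
  rw [e] at hp
  have hκ := C.κpos
  have h1 : ¬ ((p - 1) % C.κ = C.stk (c 0) ∧ 2 ≤ C.op (c 0) ∧ p - 1 < C.κ) := by
    rintro ⟨_, _, h⟩
    omega
  have h2 : C.κ * m < C.R p (c 0) := by
    unfold CM.R
    split_ifs <;> omega
  unfold CM.step CM.V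
  rw [if_neg (by omega), if_neg h1]
  exact hc _ h2

private theorem back_zero (C : CM) (c : ℕ → ℕ) (m : ℕ) (hc : ∀ p, C.κ * m < p → c p = 0)
    (s : ℕ) : ∀ p, C.κ * (m + s) < p → C.step^[s] c p = 0 := by
  induction s with
  | zero => simpa using hc
  | succ s ih =>
    intro p hp
    rw [Function.iterate_succ_apply']
    exact back_zero_step C _ (m + s) ih p (by rwa [add_assoc])

private theorem back_initc {A : Type} (C : CM) (ini ks : ℕ) (code : A → ℕ) (x : List A) :
    ∀ p, C.κ * x.length < p → initc ini ks C.κ code x p = 0 := by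
  intro p hp
  unfold initc
  rw [if_neg (by omega)]
  split_ifs with h
  · have h1 : x[(p - 1) / C.κ]? = none := by
      rw [List.getElem?_eq_none_iff, Nat.le_div_iff_mul_le C.κpos, mul_comm]
      omega
    rw [h1]
  · rfl

/-- The value at a position of a word of cells. -/
private def bval (C : CM) (y : List (Fin C.M0)) (p : ℕ) : ℕ :=
  match y[p]? with
  | some v => v
  | none => 0

private theorem bval_lt (C : CM) (hM : 0 < C.M0) (y : List (Fin C.M0)) (p : ℕ) :
    bval C y p < C.M0 := by
  unfold bval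
  cases y[p]? with
  | none => exact hM
  | some v => exact v.2

private theorem ubval (C : CM) {f : List (Fin C.M0) → (ℕ → ℕ) → ℕ} (hf : UF f) :
    UF (fun y e => bval C y (f y e)) := by
  classical
  have h1 : UF (fun (y : List (Fin C.M0)) e => ∑ a ∈ (Finset.univ : Finset (Fin C.M0)),
      ((a : ℕ) * (if y[f y e]? = some a then 1 else 0))) := by
    refine UF.fsum (F := fun (a : Fin C.M0) y e =>
      (a : ℕ) * (if y[f y e]? = some a then 1 else 0)) _
      (fun a _ => (UF.const (a : ℕ)).mul (UF.congr (UP.sym a hf) fun x e => ?_))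
    congr
  refine h1.congr fun y e => ?_
  unfold bval
  cases h : y[f y e]? with
  | none => simp
  | some v =>
    rw [Finset.sum_eq_single v]
    · simp
    · intro b _ hb
      rw [if_neg (fun h' => hb (by simpa using h'.symm))]
      simp
    · intro h; exact absurd (Finset.mem_univ _) h

/-- Letters of the next word of cells. -/
private def bnxt (C : CM) (hM : 0 < C.M0) (y : List (Fin C.M0)) (p : ℕ) : Fin C.M0 :=
  ⟨C.V p (bval C y 0) (bval C y (C.R p (bval C y 0))), C.V_lt _ _ _ (bval_lt C hM _ _)⟩

/-- The next word of cells. -/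
private def bnxw (C : CM) (hM : 0 < C.M0) (y : List (Fin C.M0)) : List (Fin C.M0) :=
  (List.range (y.length + C.κ)).map (bnxt C hM y)

private theorem back_iter (C : CM) (hM : 0 < C.M0) (c : ℕ → ℕ) (m : ℕ)
    (hc : ∀ p, C.κ * m < p → c p = 0) (y : List (Fin C.M0)) (hl : y.length = C.κ * (m + 1) + 1)
    (hv : ∀ p, bval C y p = c p) (s : ℕ) :
    ((bnxw C hM)^[s] y).length = C.κ * (m + 1) + 1 + s * C.κ ∧
      ∀ p, bval C ((bnxw C hM)^[s] y) p = C.step^[s] c p := by
  induction s with
  | zero => exact ⟨by simpa using hl, hv⟩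
  | succ s ih =>
    obtain ⟨h1, h2⟩ := ih
    rw [Function.iterate_succ_apply']
    set z := (bnxw C hM)^[s] y with hz
    have hlen : (bnxw C hM z).length = C.κ * (m + 1) + 1 + (s + 1) * C.κ := by
      simp only [bnxw, List.length_map, List.length_range, h1]
      ring
    refine ⟨hlen, fun p => ?_⟩
    by_cases hp : p < (bnxw C hM z).length
    · have hget : (bnxw C hM z)[p]? = some (bnxt C hM z p) := by
        have hp' : p < z.length + C.κ := by
          simpa [bnxw] using hp
        simp [bnxw, hp']
      unfold bval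
      rw [hget]
      simp only [bnxt]
      rw [Function.iterate_succ_apply', h2, h2]
      rfl
    · have h3 := back_zero C c m hc (s + 1) p (by
        rw [hlen] at hp
        have e1 : C.κ * (m + 1) + 1 + (s + 1) * C.κ = C.κ * (m + (s + 1)) + C.κ + 1 := by ring
        omega)
      unfold bval
      rw [List.getElem?_eq_none (not_lt.1 hp), h3]

theorem iterG_of_runsIn {α β A B : Type} [Fintype A] [Fintype B] [Nonempty B]
    {ea : α → List A} {eb : β → List B} {f : α → β} {τ : α → ℕ} (h : RunsIn ea eb f τ) :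
    ∃ c : ℕ, IterRepG ea eb f (fun a => c * τ a) (fun a => c * ((ea a).length + τ a + 1)) := by
  classical
  obtain ⟨C, ini, ks, ko, code, dcd, hlt, k₀, hini, hks, hko, hcode, hmain⟩ :=
    exists_cm_halt ea eb f τ h
  have hM : 0 < C.M0 := by omega
  have hκ := C.κpos
  obtain ⟨b0⟩ := (inferInstance : Nonempty B)
  refine ⟨C.κ * (k₀ + 2) + k₀ + 1, ?_⟩
  -- the coded functions
  have ustk : ∀ {Δ : Type} {f : List Δ → (ℕ → ℕ) → ℕ}, UF f → UF (fun x e => C.stk (f x e)) :=
    fun hf => UF.table' _ _ C.stk_zero hf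
  have uop : ∀ {Δ : Type} {f : List Δ → (ℕ → ℕ) → ℕ}, UF f → UF (fun x e => C.op (f x e)) :=
    fun hf => UF.table' _ _ C.op_zero hf
  have unx : ∀ {Δ : Type} {f g : List Δ → (ℕ → ℕ) → ℕ}, UF f → UF g →
      UF (fun x e => C.nx (f x e) (g x e)) :=
    fun {Δ} {f g} hf hg => (UF.table₂ C.nx C.M0 C.M0 hf hg).congr fun x e => by
      split_ifs with h
      · rfl
      · exact (C.nx_zero _ _ h).symm
  have uR : ∀ {Δ : Type} {f g : List Δ → (ℕ → ℕ) → ℕ}, UF f → UF g →
      UF (fun x e => C.R (f x e) (g x e)) := by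
    intro Δ f g hf hg
    unfold CM.R
    exact UF.ite (UP.eq hf (UF.const 0)) ((UF.const 1).add (ustk hg))
      (UF.ite (UP.eq ((hf.sub (UF.const 1)).mod (UF.const _)) (ustk hg))
        (UF.ite (UP.eq (uop hg) (UF.const 0)) hf
          (UF.ite (UP.eq (uop hg) (UF.const 1)) (hf.add (UF.const _))
            (UF.ite (UP.lt (hf.sub (UF.const 1)) (UF.const _)) hf (hf.sub (UF.const _))))) hf)
  have uV : ∀ {Δ : Type} {f g h : List Δ → (ℕ → ℕ) → ℕ}, UF f → UF g → UF h →
      UF (fun x e => C.V (f x e) (g x e) (h x e)) := by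
    intro Δ f g h hf hg hh
    unfold CM.V
    exact UF.ite (UP.eq hf (UF.const 0)) (unx hg hh)
      (UF.ite ((UP.eq ((hf.sub (UF.const 1)).mod (UF.const _)) (ustk hg)).and
        ((UP.le (UF.const 2) (uop hg)).and (UP.lt (hf.sub (UF.const 1)) (UF.const _))))
        ((uop hg).sub (UF.const 2)) hh)
  -- the initial word
  have uiv : UF (fun (x : List A) e => initc ini ks C.κ code x (e 0)) := by
    have hi : UF (fun (x : List A) e => (e 0 - 1) / C.κ) :=
      ((UF.var 0).sub (UF.const 1)).div (UF.const _)
    unfold initc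
    refine UF.ite (UP.eq (UF.var 0) (UF.const 0)) (UF.const _)
      (UF.ite (UP.eq (((UF.var 0).sub (UF.const 1)).mod (UF.const _)) (UF.const _))
        ?_ (UF.const 0))
    have h1 : UF (fun (x : List A) (e : ℕ → ℕ) => ∑ a ∈ (Finset.univ : Finset A),
        (code a * (if x[(e 0 - 1) / C.κ]? = some a then 1 else 0))) := by
      refine UF.fsum (F := fun a x e => code a * (if x[(e 0 - 1) / C.κ]? = some a then 1 else 0)) _
        (fun a _ => (UF.const (code a)).mul (UF.congr (UP.sym a hi) fun x e => ?_))
      congr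
    refine h1.congr fun x e => ?_
    cases hx : x[(e 0 - 1) / C.κ]? with
    | none => simp
    | some v =>
      rw [Finset.sum_eq_single v]
      · simp
      · intro b _ hb
        rw [if_neg (fun h' => hb (by simpa using h'.symm))]
        simp
      · intro h; exact absurd (Finset.mem_univ _) h
  have iv_lt : ∀ x p, initc ini ks C.κ code x p < C.M0 := fun x p => initc_lt hini hcode x p
  let G₀ : List A → ℕ → Fin C.M0 := fun x p => ⟨initc ini ks C.κ code x p, iv_lt x p⟩
  have uG₀ : UD (fun x e => G₀ x (e 0)) := by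
    intro v
    refine (UP.eq uiv (UF.const (v : ℕ))).congr fun x e => ?_
    simp only [G₀, Fin.ext_iff]
  have h0 : UF (fun (y : List (Fin C.M0)) (_ : ℕ → ℕ) => bval C y 0) := ubval C (UF.const 0)
  have uG₁ : UD (fun y e => bnxt C hM y (e 0)) := by
    intro v
    have h1 : UF (fun (y : List (Fin C.M0)) e => C.V (e 0) (bval C y 0)
        (bval C y (C.R (e 0) (bval C y 0)))) :=
      uV (UF.var 0) h0 (ubval C (uR (UF.var 0) h0))
    refine (UP.eq h1 (UF.const (v : ℕ))).congr fun x e => ?_
    simp only [bnxt, Fin.ext_iff]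
  have uQ : UP (fun (y : List (Fin C.M0)) _ => ¬ hlt (bval C y 0)) := by
    refine UP.of_ne_zero (UF.table (fun a => if ¬ hlt a then 1 else 0) C.M0 h0) fun x e => ?_
    rw [if_pos (bval_lt C hM _ _)]
    by_cases h2 : hlt (bval C x 0) <;> simp [h2]
  -- the output
  let D : List (Fin C.M0) → ℕ → Option B := fun y i => dcd (bval C y (1 + i * C.κ + ko))
  have uD : UD (fun y e => D y (e 0)) := by
    intro o
    have h1 : UF (fun (y : List (Fin C.M0)) (e : ℕ → ℕ) => bval C y (1 + e 0 * C.κ + ko)) :=
      ubval C (((UF.const 1).add ((UF.var 0).mul (UF.const _))).add (UF.const _))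
    refine UP.of_ne_zero (UF.table (fun a => if dcd a = o then 1 else 0) C.M0 h1) fun x e => ?_
    rw [if_pos (bval_lt C hM _ _)]
    by_cases h2 : dcd (bval C x (1 + e 0 * C.κ + ko)) = o <;> simp [D, h2]
  let M₂ : List (Fin C.M0) → ℕ := fun y =>
    ∑ i ∈ Finset.range y.length, if ∀ j, j < i + 1 → D y j ≠ none then 1 else 0
  have uM₂ : UF (fun y _ => M₂ y) := by
    refine UF.sum (f := fun y _ i => if ∀ j, j < i + 1 → D y j ≠ none then 1 else 0) UF.len ?_
    have h1 : UP (fun (y : List (Fin C.M0)) (e : ℕ → ℕ) =>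
        ∀ j, j < e 0 + 1 → D y j ≠ none) :=
      UP.ball (P := fun y _ j => D y j ≠ none) ((UF.var 0).add (UF.const 1)) (uD none).not
    refine UF.congr h1 fun x e => ?_
    congr
  let G₂ : List (Fin C.M0) → ℕ → B := fun y i => (D y i).getD b0
  have uG₂ : UD (fun y e => G₂ y (e 0)) := UD.map uD (fun o => o.getD b0)
  have uW : UF (fun (x : List A) (_ : ℕ → ℕ) => C.κ * (x.length + 1) + 1) :=
    ((UF.const _).mul (UF.len.add (UF.const 1))).add (UF.const 1)
  refine ⟨Fin C.M0, inferInstance,
    fun x => (List.range (C.κ * (x.length + 1) + 1)).map (G₀ x), bnxw C hM,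
    fun y => (List.range (M₂ y)).map (G₂ y), fun y => ¬ hlt (bval C y 0),
    ⟨fun x => C.κ * (x.length + 1) + 1, G₀, uW, uG₀, fun _ => rfl⟩,
    ⟨fun y => y.length + C.κ, bnxt C hM, UF.len.add (UF.const _), uG₁, fun _ => rfl⟩,
    ⟨M₂, G₂, uM₂, uG₂, fun _ => rfl⟩, uQ, fun a => ?_⟩
  obtain ⟨T, hT, hT1, hT2, hout⟩ := hmain a
  set x := ea a with hx
  set y := (List.range (C.κ * (x.length + 1) + 1)).map (G₀ x) with hy
  have hyl : y.length = C.κ * (x.length + 1) + 1 := by simp [hy]
  have hini' := back_initc C ini ks code x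
  have key := back_iter C hM (initc ini ks C.κ code x) x.length hini' y hyl (fun p => by
    by_cases hp : p < C.κ * (x.length + 1) + 1
    · have h1 : y[p]? = some (G₀ x p) := by
        simp [hy, List.getElem?_range hp]
      unfold bval
      rw [h1]
    · unfold bval
      rw [List.getElem?_eq_none (by omega), hini' p (by
        have e1 : C.κ * (x.length + 1) = C.κ * x.length + C.κ := by ring
        omega)])
  have hTτ : T ≤ (C.κ * (k₀ + 2) + k₀ + 1) * τ a :=
    hT.trans (Nat.mul_le_mul_right _ (by omega))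
  refine ⟨T, hTτ, fun i hi => ?_, ?_, fun i hi => ?_, ?_⟩
  · change ¬ hlt (bval C ((bnxw C hM)^[i] y) 0)
    rw [(key i).2 0]
    exact hT1 i hi
  · change ¬ ¬ hlt (bval C ((bnxw C hM)^[T] y) 0)
    rw [(key T).2 0, not_not]
    exact hT2
  · rw [(key i).1]
    have h1 : i * C.κ ≤ k₀ * τ a * C.κ := Nat.mul_le_mul_right _ (hi.trans hT)
    have h2 : (C.κ * (k₀ + 2) + k₀ + 1) * (x.length + τ a + 1) =
        C.κ * (x.length + 1) + 1 + k₀ * τ a * C.κ +
          (C.κ * (k₀ + 1) * (x.length + 1) + k₀ * (x.length + τ a + 1) + (x.length + τ a) +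
            2 * C.κ * τ a) := by ring
    change C.κ * (x.length + 1) + 1 + i * C.κ ≤
      (C.κ * (k₀ + 2) + k₀ + 1) * (x.length + τ a + 1)
    rw [h2]
    omega
  -- the output
  set z := (bnxw C hM)^[T] y with hz
  have hzl : z.length = C.κ * (x.length + 1) + 1 + T * C.κ := (key T).1
  have hfar : ∀ i, x.length + T ≤ i → dcd 0 = (eb (f a))[i]? := by
    intro i hi
    have h1 : C.κ * (x.length + T) ≤ i * C.κ := by
      rw [mul_comm]
      exact Nat.mul_le_mul_right _ hi
    have h2 := back_zero C _ _ hini' T (1 + i * C.κ + ko) (by omega)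
    rw [← hout i, h2]
  have hd0 : dcd 0 = none := by
    rw [hfar (x.length + T + (eb (f a)).length) (by omega)]
    rw [List.getElem?_eq_none_iff]
    omega
  have hlen : (eb (f a)).length ≤ x.length + T := by
    have h1 := hfar (x.length + T) le_rfl
    rw [hd0] at h1
    exact List.getElem?_eq_none_iff.1 h1.symm
  have hD : ∀ i, D z i = (eb (f a))[i]? := by
    intro i
    rw [← hout i, ← (key T).2]
  have hzlen : (eb (f a)).length ≤ z.length := by
    have e1 : 1 * (x.length + 1 + T) ≤ C.κ * (x.length + 1 + T) := Nat.mul_le_mul_right _ hκ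
    have e2 : C.κ * (x.length + 1 + T) = C.κ * (x.length + 1) + T * C.κ := by ring
    omega
  have hM₂ : M₂ z = (eb (f a)).length := by
    have h1 : ∀ i ∈ Finset.range z.length, (∀ j, j < i + 1 → D z j ≠ none) ↔
        i < (eb (f a)).length := by
      intro i _
      constructor
      · intro h2
        by_contra h3
        refine h2 (eb (f a)).length (by omega) ?_
        rw [hD, List.getElem?_eq_none_iff]
      · intro h2 j hj
        rw [hD j, Ne, List.getElem?_eq_none_iff]
        omega
    change (∑ i ∈ Finset.range z.length, if ∀ j, j < i + 1 → D z j ≠ none then 1 else 0) = _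
    rw [Finset.sum_boole, Nat.cast_id]
    have h2 : (Finset.range z.length).filter (fun i => ∀ j, j < i + 1 → D z j ≠ none) =
        Finset.range (eb (f a)).length := by
      ext i
      rw [Finset.mem_filter, Finset.mem_range, Finset.mem_range]
      constructor
      · rintro ⟨h3, h4⟩
        exact (h1 i (Finset.mem_range.2 h3)).1 h4
      · intro h3
        exact ⟨by omega, (h1 i (Finset.mem_range.2 (by omega))).2 h3⟩
    rw [h2, Finset.card_range]
  change eb (f a) = (List.range (M₂ z)).map (G₂ z)
  rw [hM₂]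
  apply List.ext_getElem?
  intro i
  rw [List.getElem?_map]
  by_cases hi : i < (eb (f a)).length
  · rw [List.getElem?_range hi, List.getElem?_eq_getElem hi]
    simp only [Option.map_some, G₂]
    rw [hD i, List.getElem?_eq_getElem hi]
    rfl
  · rw [List.getElem?_eq_none_iff.2 (not_lt.1 hi), List.getElem?_eq_none_iff.2]
    · rfl
    · rw [List.length_range]
      exact not_lt.1 hi

end Pool.Agent.CPW
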