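import Pool.Agent.CPW.F.Defs
import Pool.Agent.PCP.CmOut

/-!
# Package FCm: machines as coded machines, with detection of halting

As `Pool.Agent.PCP.exists_cm_out` (file `Pool/Agent/PCP/CmOut.lean`; micro-steps in
`Pool/Agent/PT/Micro.lean`, coded machines in `Pool/Agent/PT/Coded.lean`). Let
`hlt b` be the statement: `decC tm b = some c` for some control `c` with `c.1.1 = none`. The relation
`Rel tm c m` between coded and micro configurations says that `decC tm (c 0)` is the control of `m`, so
`hlt (C.step^[t] (initc …) 0)` holds iff the micro configuration after `t` steps has statement `none`.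
By `msteps_run` the micro machine reaches the halting configuration (statement `none`) after some
`d ≤ (τ a) * bigsize` steps and stays there (`msteps_halted`). Let `T` be the least `t` such that the
micro configuration after `t` steps has statement `none`; then `T ≤ d`, and the configuration after `T`
steps is the halting one (it does not change any more). Put `k₀ = bigsize`.
-/

set_option autoImplicit false

namespace Pool.Agent.CPW

open Turing Computability
open Pool.Agent.PT Pool.Agent.Book19 Pool.Agent.B7219d Pool.Agent.PCP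

theorem exists_cm_halt {α β A B : Type} (ea : α → List A) (eb : β → List B) (f : α → β)
    (τ : α → ℕ) (h : RunsIn ea eb f τ) :
    ∃ (C : CM) (ini ks ko : ℕ) (code : A → ℕ) (dcd : ℕ → Option B) (hlt : ℕ → Prop) (k₀ : ℕ),
      ini < C.M0 ∧ ks < C.κ ∧ ko < C.κ ∧ (∀ a, code a < C.M0) ∧
      ∀ a : α, ∃ T ≤ k₀ * τ a,
        (∀ t < T, ¬ hlt ((C.step^[t] (initc ini ks C.κ code (ea a))) 0)) ∧
        hlt ((C.step^[T] (initc ini ks C.κ code (ea a))) 0) ∧
        ∀ i, dcd ((C.step^[T] (initc ini ks C.κ code (ea a))) (1 + i * C.κ + ko)) =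
          (eb (f a))[i]? := by
  classical
  obtain ⟨tm, e₀, e₁, hout⟩ := h
  have hm0 : ∀ c, ctl tm c < m0 tm := fun c => by
    have := ctl_lt tm c
    unfold m0; omega
  refine ⟨cm tm, ctl tm (⟨some (tm.m tm.main), main_mem_FF tm tm.main⟩, tm.initialState),
    (eK tm tm.k₀).val, (eK tm tm.k₁).val, fun a => inC tm (e₀.symm a),
    fun b => (decS tm tm.k₁ b).map e₁, fun b => ∃ c, decC tm b = some c ∧ c.1.1 = none,
    (letI := tm.ΛFin; bigsize tm.m), hm0 _, (eK tm _).isLt, (eK tm _).isLt, ?_, ?_⟩
  · intro a
    change inC tm _ < m0 tm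
    have := (eG tm (e₀.symm a)).isLt
    unfold inC m0
    omega
  · intro a
    let _ := tm.ΛFin
    obtain ⟨h0⟩ := hout a
    obtain ⟨⟨n, hn⟩, hle⟩ := h0
    obtain ⟨d, hd, hd'⟩ := msteps_run tm.m n _ _ hn
    set y := List.map e₀.symm (ea a) with hy
    have hinit : initc (ctl tm (⟨some (tm.m tm.main), main_mem_FF tm tm.main⟩, tm.initialState))
        (eK tm tm.k₀).val (cm tm).κ (fun a => inC tm (e₀.symm a)) (ea a) =
        initc (ctl tm (⟨some (tm.m tm.main), main_mem_FF tm tm.main⟩, tm.initialState))
        (eK tm tm.k₀).val (nK tm) (inC tm) y := by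
      funext pos
      unfold initc
      congr 1
      change (if (pos - 1) % nK tm = _ then _ else _) = _
      congr 1
      rw [hy, List.getElem?_map]
      change (match (ea a)[(pos - 1) / nK tm]? with
        | some a => inC tm (e₀.symm a)
        | none => 0) = _
      cases (ea a)[(pos - 1) / nK tm]? <;> rfl
    rw [hinit]
    have hrel := rel_init tm y
    have hrelt := rel_iter tm _ (fun p => initc_lt (hm0 _) (fun g => by
      have := (eG tm g).isLt
      unfold inC m0
      omega) y p) _ hrel
    have hhalt : ∀ t, (∃ c, decC tm ((cm tm).step^[t]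
        (initc (ctl tm (⟨some (tm.m tm.main), main_mem_FF tm tm.main⟩, tm.initialState))
        (eK tm tm.k₀).val (nK tm) (inC tm) y) 0) = some c ∧ c.1.1 = none) ↔
        ((mstep tm.m)^[t] (toM tm.m (initList tm y))).s = none := by
      intro t
      rw [(hrelt t).control, decC_ctl]
      constructor
      · rintro ⟨c, hc, hc'⟩
        rw [← Option.some.inj hc] at hc'
        exact hc'
      · intro h'
        exact ⟨_, rfl, h'⟩
    have hex : ∃ t, ((mstep tm.m)^[t] (toM tm.m (initList tm y))).s = none := by
      refine ⟨d, ?_⟩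
      rw [hd']
      rfl
    obtain ⟨T, hT, hmin⟩ : ∃ T, ((mstep tm.m)^[T] (toM tm.m (initList tm y))).s = none ∧
        ∀ t < T, ¬ ((mstep tm.m)^[t] (toM tm.m (initList tm y))).s = none :=
      ⟨Nat.find hex, Nat.find_spec hex, fun t ht => Nat.find_min hex ht⟩
    have hTd : T ≤ d := by
      by_contra hlt
      exact hmin d (not_le.mp hlt) (by rw [hd']; rfl)
    refine ⟨T, ?_, fun t ht h' => hmin t ht ((hhalt t).mp h'), (hhalt T).mpr hT, fun i => ?_⟩
    · refine (hTd.trans hd).trans ?_
      rw [Nat.mul_comm]
      exact Nat.mul_le_mul_left _ hle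
    · have hT' : (mstep tm.m)^[T] (toM tm.m (initList tm y)) =
          toM tm.m (haltList tm (List.map e₁.symm (eb (f a)))) := by
        obtain ⟨e, rfl⟩ := Nat.exists_eq_add_of_le hTd
        rw [Nat.add_comm, Function.iterate_add_apply] at hd'
        rcases hc : (mstep tm.m)^[T] (toM tm.m (initList tm y)) with ⟨s', v', S'⟩
        rw [hc] at hT hd'
        change s' = none at hT
        subst hT
        rw [msteps_halted] at hd'
        exact hd'
      have hrelT := hrelt T
      rw [hT'] at hrelT
      have h1 := hrelT.stk_eq tm.k₁ i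
      have h2 : (toM tm.m (haltList tm (List.map e₁.symm (eb (f a))))).S tm.k₁ =
          List.map e₁.symm (eb (f a)) := by
        change (haltList tm (List.map e₁.symm (eb (f a)))).stk tm.k₁ = _
        simp [haltList]
      rw [h2] at h1
      change (decS tm tm.k₁ _).map e₁ = _
      change decS tm tm.k₁ ((cm tm).step^[T] _ (1 + i * (cm tm).κ + (eK tm tm.k₁).val)) = _ at h1
      rw [h1, List.getElem?_map, Option.map_map]
      have h3 : (⇑e₁ ∘ ⇑e₁.symm) = id := by
        funext b
        exact e₁.apply_symm_apply b
      rw [h3]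
      simp

end Pool.Agent.CPW
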