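import Mathlib
import Pool.Agent.PCP.IterOut

/-!
# Fixed-parameter tractability and reductions: definitions
-/

set_option autoImplicit false

namespace Pool.Agent.CPW

open Turing Computability
open Pool.Agent.PT Pool.Agent.Book19 Pool.Agent.B7219d Pool.Agent.PCP

/-- One Turing machine (Mathlib's `FinTM2`) computes `f` (with respect to the codes `ea`, `eb`); on the
input `a` it halts after at most `τ a` steps. -/
def RunsIn {α β A B : Type} (ea : α → List A) (eb : β → List B) (f : α → β) (τ : α → ℕ) : Prop :=
  ∃ (M : FinTM2) (e₀ : M.Γ M.k₀ ≃ A) (e₁ : M.Γ M.k₁ ≃ B), ∀ a : α,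
    Nonempty (TM2OutputsInTime M ((ea a).map e₀.symm) (some ((eb (f a)).map e₁.symm)) (τ a))

/-- A parameterised problem, given by a predicate `L` and a parameter `κ` on objects with codes `ea`, is
**fixed-parameter tractable**: one Turing machine decides it in at most `f (κ a) * (|ea a| + 1) ^ c`
steps, for a computable function `f` and a constant `c`. -/
def IsFPT {α A : Type} (ea : α → List A) (κ : α → ℕ) (L : α → Prop) : Prop :=
  ∃ (f : ℕ → ℕ) (c : ℕ) (g : α → Bool), Computable f ∧ (∀ a, g a = true ↔ L a) ∧
    RunsIn ea encodeBool g (fun a => f (κ a) * ((ea a).length + 1) ^ c)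

/-- Functions (on codes) which are computed by an initial word function, the iteration of a word
function while a condition holds, and a final word function; `S a` bounds the number of rounds and
`L a` the length of the words on the input `a` (a version of `Pool.Agent.PCP.IterRep`). -/
def IterRepG {α β A B : Type} (ea : α → List A) (eb : β → List B) (f : α → β) (S L : α → ℕ) :
    Prop :=
  ∃ (Λ : Type) (_ : Fintype Λ) (F₀ : List A → List Λ) (F₁ : List Λ → List Λ)
    (F₂ : List Λ → List B) (Q : List Λ → Prop),
    WF F₀ ∧ WF F₁ ∧ WF F₂ ∧ (UP fun x _ => Q x) ∧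
    ∀ a, ∃ s ≤ S a, (∀ i < s, Q (F₁^[i] (F₀ (ea a)))) ∧
      ¬ Q (F₁^[s] (F₀ (ea a))) ∧ (∀ i ≤ s, (F₁^[i] (F₀ (ea a))).length ≤ L a) ∧
      eb (f a) = F₂ (F₁^[s] (F₀ (ea a)))

end Pool.Agent.CPW
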