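import Pool.Agent.CPW.F.Iter
import Pool.Agent.CPW.F.Comp
import Pool.Agent.CPW.F.Back

/-!
# Package FFpt: fixed-parameter tractability is preserved by polynomial time reductions

Let `f, c, g` be as in `IsFPT eb κ' L'` and `τ' b = f (κ' b) (|eb b| + 1)^c`. By `iterG_of_runsIn` the
decision function `g : β → Bool` has an `IterRepG` with bounds `c₁ τ' b` and `c₁ (|eb b| + τ' b + 1)`. By
`iterRep_of_polyTime` and `iterG_of_iterRep` the reduction `r` has an `IterRepG` with bounds `T |ea a|`,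
and `|eb (r a)| ≤ T |ea a|`, `T N ≤ (N + 2)^d`. `iterG_comp` and `runsIn_of_iterG` give `RunsIn` for
`a ↦ g (r a)` with the time bound `C (N + S + L)`, `N = |ea a|`, `C x ≤ (x + 2)^m`, where with
`F = f (h (κ a))` (as `κ' (r a) = h (κ a)`):
`N + S + L ≤ N + 2 T N + 2 + c₁ F (T N + 1)^c + c₁ (T N + F (T N + 1)^c + 1)
 ≤ (c₁ + 1)(F + 1) * 8 * (N + 2)^(d c + d + 1)`. With `N + 2 ≤ 2 (N + 1)` the time bound is at most
`f' (κ a) (N + 1)^c'` with `c' = m (d c + d + 1)` and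
`f' k = (K (f (h k) + 2))^m` for a constant `K`. `f'` is computable because `f` and `h` are (compare
`final_of_spec` in `Pool/Agent/MDF/Final.lean`: `Primrec` for `n ↦ (K (n + 2))^m`, composed with the
computable functions).
(Constants can be chosen generously; `TM2OutputsInTime` is monotone in the time bound, see
`outputs_mono` in `Pool/Agent/MDF/Final.lean`.)
-/

set_option autoImplicit false

namespace Pool.Agent.CPW

open Turing Computability
open Pool.Agent.PT Pool.Agent.Book19 Pool.Agent.B7219d Pool.Agent.PCP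

/-- `RunsIn` is monotone in the time bound. -/
theorem RunsIn.mono {α β A B : Type} {ea : α → List A} {eb : β → List B} {f : α → β}
    {τ τ' : α → ℕ} (h : RunsIn ea eb f τ) (hτ : ∀ a, τ a ≤ τ' a) : RunsIn ea eb f τ' := by
  obtain ⟨M, e₀, e₁, hM⟩ := h
  refine ⟨M, e₀, e₁, fun a => ?_⟩
  obtain ⟨hMa⟩ := hM a
  exact ⟨⟨hMa.toEvalsTo, hMa.steps_le_m.trans (hτ a)⟩⟩

private theorem fpt_powc (k : ℕ) {f : ℕ → ℕ} (hf : Primrec f) : Primrec fun n => f n ^ k := by
  induction k with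
  | zero => exact (Primrec.const 1).of_eq fun n => by simp
  | succ k ih => exact (Primrec.nat_mul.comp ih hf).of_eq fun n => by rw [pow_succ]

private theorem fpt_arith {N t l F c c₁ d : ℕ} (ht : t ≤ (N + 2) ^ d) (hl : l ≤ t) :
    N + (t + 1 + c₁ * (F * (l + 1) ^ c)) +
        (t + 1 + c₁ * (l + F * (l + 1) ^ c + 1)) + 2 ≤
      (5 + 2 * c₁) * (F + 1) * (N + 2) ^ ((d + 1) * c + d + 1) := by
  set e := (d + 1) * c + d + 1 with he
  set Z := (N + 2) ^ e with hZ
  have h1 : N + 2 ≤ Z := by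
    calc N + 2 = (N + 2) ^ 1 := (pow_one _).symm
      _ ≤ Z := Nat.pow_le_pow_right (by omega) (by omega)
  have h2 : t ≤ Z := ht.trans (Nat.pow_le_pow_right (by omega) (by omega))
  have h3 : t + 1 ≤ (N + 2) ^ (d + 1) := by
    have h4 : 1 ≤ (N + 2) ^ d := Nat.one_le_pow _ _ (by omega)
    have h5 : (N + 2) ^ d * 2 ≤ (N + 2) ^ (d + 1) := by
      rw [pow_succ]
      exact Nat.mul_le_mul_left _ (by omega)
    omega
  have h6 : (l + 1) ^ c ≤ Z := by
    calc (l + 1) ^ c ≤ ((N + 2) ^ (d + 1)) ^ c := Nat.pow_le_pow_left (by omega) _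
      _ = (N + 2) ^ ((d + 1) * c) := (pow_mul _ _ _).symm
      _ ≤ Z := Nat.pow_le_pow_right (by omega) (by omega)
  have h7 : F * (l + 1) ^ c ≤ F * Z := Nat.mul_le_mul_left _ h6
  have h8 : c₁ * (F * (l + 1) ^ c) ≤ c₁ * (F * Z) := Nat.mul_le_mul_left _ h7
  have h9 : c₁ * (l + F * (l + 1) ^ c + 1) ≤ c₁ * (Z + F * Z + Z) :=
    Nat.mul_le_mul_left _ (by omega)
  have h10 : (5 + 2 * c₁) * (F + 1) * Z =
      c₁ * (F * Z) + c₁ * (Z + F * Z + Z) + 5 * Z + 5 * (F * Z) := by ring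
  rw [h10]
  omega

theorem isFPT_of_reduction {α β A B : Type} [Fintype A] [Fintype B] [Nonempty B]
    {ea : α → List A} {eb : β → List B} {κ : α → ℕ} {κ' : β → ℕ} {L : α → Prop} {L' : β → Prop}
    (r : α → β) (hr : Nonempty (TM2ComputableInPolyTime ea eb r)) (h : ℕ → ℕ)
    (hh : Computable h) (hκ : ∀ a, κ' (r a) = h (κ a)) (hL : ∀ a, L a ↔ L' (r a))
    (hF : IsFPT eb κ' L') : IsFPT ea κ L := by
  obtain ⟨f, c, g, hf, hg, hrun⟩ := hF
  obtain ⟨c₁, hc₁⟩ := iterG_of_runsIn hrun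
  obtain ⟨T, hT, hTr, hTl⟩ := iterG_of_iterRep (iterRep_of_polyTime hr)
  obtain ⟨C, hC, hCr⟩ := runsIn_of_iterG (iterG_comp hc₁ hTr)
  obtain ⟨-, d, hd⟩ := hT
  obtain ⟨-, m, hm⟩ := hC
  set e := (d + 1) * c + d + 1 with he
  refine ⟨fun k => ((5 + 2 * c₁) * (f (h k) + 1)) ^ m * 2 ^ (e * m), e * m, fun a => g (r a),
    ?_, fun a => (hg (r a)).trans (hL a).symm, hCr.mono fun a => ?_⟩
  · have h1 : Primrec fun n : ℕ => ((5 + 2 * c₁) * (n + 1)) ^ m * 2 ^ (e * m) :=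
      Primrec.nat_mul.comp (fpt_powc m (Primrec.nat_mul.comp (Primrec.const _)
        (Primrec.nat_add.comp Primrec.id (Primrec.const 1)))) (Primrec.const _)
    exact h1.to_comp.comp (hf.comp hh)
  · have h1 := fpt_arith (F := f (h (κ a))) (c := c) (c₁ := c₁) (hd (ea a).length) (hTl a)
    rw [← he] at h1
    refine (hm _).trans ?_
    rw [hκ]
    refine (Nat.pow_le_pow_left h1 m).trans ?_
    rw [mul_pow, ← pow_mul]
    have h2 : ((ea a).length + 2) ^ (e * m) ≤ 2 ^ (e * m) * ((ea a).length + 1) ^ (e * m) := by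
      rw [← mul_pow]
      exact Nat.pow_le_pow_left (by omega) _
    calc ((5 + 2 * c₁) * (f (h (κ a)) + 1)) ^ m * ((ea a).length + 2) ^ (e * m)
        ≤ ((5 + 2 * c₁) * (f (h (κ a)) + 1)) ^ m *
          (2 ^ (e * m) * ((ea a).length + 1) ^ (e * m)) := Nat.mul_le_mul_left _ h2
      _ = _ := by ring

end Pool.Agent.CPW
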