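import Pool.Agent.CPW.F.Prog

/-!
# Package FIter: from iterations to machines

Copy the proof of `Pool.Agent.PCP.polyTime_of_iterRep` (file `Pool/Agent/PCP/IterOut.lean`), with
`runsIn_of_prog` instead of `polyTime_of_prog`, `S (ea a).length` replaced by `S a`, `L (ea a).length`
by `L a`. The number of steps of the program is at most
`T₀ |a| + (T₂ (L a) + ((S a (T₁ (L a) + T₂ (L a) + 1) + 1) + T₃ (L a)))` and the output has length at
most `T₃ (L a)`, with monotone polynomially bounded `T₀, …, T₃`; all of this is at most `C (|a| + S a +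
L a)` for a polynomially bounded `C` (`PB.add`, `PB.mul`, `PB.comp`; monotonicity).
-/

set_option autoImplicit false

namespace Pool.Agent.CPW

open Turing Computability
open Pool.Agent.PT Pool.Agent.Book19 Pool.Agent.B7219d Pool.Agent.PCP

theorem runsIn_of_iterG {α β A B : Type} [Fintype A] [Fintype B] {ea : α → List A}
    {eb : β → List B} {f : α → β} {S L : α → ℕ} (h : IterRepG ea eb f S L) :
    ∃ C : ℕ → ℕ, PB C ∧ RunsIn ea eb f (fun a => C ((ea a).length + S a + L a)) := by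
  classical
  obtain ⟨Λ, hΛ, F₀, F₁, F₂, Q, ⟨M₀, G₀, hM₀, hG₀, hF₀⟩, ⟨M₁, G₁, hM₁, hG₁, hF₁⟩,
    ⟨M₂, G₂, hM₂, hG₂, hF₂⟩, hQ, hrun⟩ := h
  obtain ⟨m₀, hm₀⟩ := hM₀
  obtain ⟨m₁, hm₁⟩ := hM₁
  obtain ⟨m₂, hm₂⟩ := hM₂
  obtain ⟨t₀, K₀, φ₀, h₀⟩ := exists_letter (G := G₀) hG₀
  obtain ⟨t₁, K₁, φ₁, h₁⟩ := exists_letter (G := G₁) hG₁
  obtain ⟨t₂, K₂, φ₂, h₂⟩ := exists_letter (G := G₂) hG₂
  obtain ⟨c, hc⟩ := hQ
  have e₀ : wf m₀ t₀ K₀ φ₀ = F₀ := by
    funext x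
    rw [hF₀, wf, hm₀]
    exact List.map_congr_left fun i _ => h₀ x i
  have e₁ : wf m₁ t₁ K₁ φ₁ = F₁ := by
    funext x
    rw [hF₁, wf, hm₁]
    exact List.map_congr_left fun i _ => h₁ x i
  have e₂ : wf m₂ t₂ K₂ φ₂ = F₂ := by
    funext x
    rw [hF₂, wf, hm₂]
    exact List.map_congr_left fun i _ => h₂ x i
  have hcv : ∀ x, c.eval x (fun _ => 0) = if Q x then 1 else 0 := fun x => hc x _
  let AA : Type := A ⊕ (Λ ⊕ B)
  let g₀ : A → AA := Sum.inl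
  let g : Λ → AA := fun x => Sum.inr (Sum.inl x)
  let gb : B → AA := fun x => Sum.inr (Sum.inr x)
  have hg₀ : Function.Injective g₀ := Sum.inl_injective
  have hg : Function.Injective g := fun a b h => Sum.inl_injective (Sum.inr_injective h)
  let u : AA := gb (G₂ [] 0)
  obtain ⟨T₀, hT₀, r₀⟩ := runs_step g₀ hg₀ u m₀ t₀ K₀ φ₀ g
  obtain ⟨T₁, hT₁, r₁⟩ := runs_step g hg u m₁ t₁ K₁ φ₁ g
  obtain ⟨T₂, hT₂, r₂⟩ := runs_flag g hg u c
  obtain ⟨T₃, hT₃, r₃⟩ := runs_outP g hg u m₂ t₂ K₂ (fun v => gb (φ₂ v))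
  let prog : Prog AA := Prog.seq (stepP g₀ u m₀ t₀ K₀ (fun n => g (φ₀ n)))
    (Prog.seq (c.comp g u (fun _ => 3) 4)
      (Prog.seq (Prog.loop 4 (fun _ => Prog.seq (stepP g u m₁ t₁ K₁ (fun n => g (φ₁ n)))
        (c.comp g u (fun _ => 3) 4)))
      (outP g u m₂ t₂ K₂ (fun v => gb (φ₂ v)))))
  let D : ℕ → ℕ := fun N => T₀ N + (T₂ N + ((N * (T₁ N + T₂ N + 1) + 1) + T₃ N))
  have hD : PB D := hT₀.add (hT₂.add (((PB.id.mul ((hT₁.add hT₂).add (PB.const 1))).add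
    (PB.const 1)).add hT₃))
  let C : ℕ → ℕ := fun N => 10 * (N + D N + T₃ N + 1)
  have hC : PB C := (PB.const 10).mul (((PB.id.add hD).add hT₃).add (PB.const 1))
  let d : AA → B := Sum.elim (fun _ => G₂ [] 0) (Sum.elim (fun _ => G₂ [] 0) id)
  refine ⟨C, hC, ?_⟩
  have main := runsIn_of_prog ea eb f prog g₀ d u (fun a => (eb (f a)).map gb) (fun a => ?_)
    (fun a => D ((ea a).length + S a + L a)) (fun a => ?_)
  · obtain ⟨M, e₀, e₁, hM⟩ := main
    refine ⟨M, e₀, e₁, fun a => ?_⟩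
    obtain ⟨hMa⟩ := hM a
    refine ⟨⟨hMa.toEvalsTo, hMa.steps_le_m.trans ?_⟩⟩
    have hlen : ((eb (f a)).map gb).length ≤ T₃ (L a) := by
      obtain ⟨s, hs, hs1, hs0, hsL, hfin⟩ := hrun a
      have h1 := (r₃ (F₁^[s] (F₀ (ea a)))).1
      have h2 : T₃ (F₁^[s] (F₀ (ea a))).length ≤ T₃ (L a) := hT₃.1 (hsL s le_rfl)
      rw [List.length_map, hfin, hF₂, List.length_map, List.length_range]
      rw [hm₂] at h1
      exact h1.trans h2
    have h3 : T₃ (L a) ≤ T₃ ((ea a).length + S a + L a) := hT₃.1 (by omega)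
    simp only [C]
    omega
  · rw [List.map_map]
    have e : d ∘ gb = id := rfl
    rw [e, List.map_id]
  · obtain ⟨s, hs, hs1, hs0, hsL, hfin⟩ := hrun a
    have hone : ∀ i < s, c.eval (F₁^[i] (F₀ (ea a))) (fun _ => 0) = 1 := fun i hi => by
      rw [hcv, if_pos (hs1 i hi)]
    have hzero : c.eval (F₁^[s] (F₀ (ea a))) (fun _ => 0) = 0 := by
      rw [hcv, if_neg hs0]
    have g0 := r₀ (ea a)
    rw [e₀] at g0
    have g2 := r₂ (F₀ (ea a))
    have g3 := runs_iter g u F₁ c _ T₁ T₂ hT₁ hT₂ (by rw [← e₁]; exact r₁) r₂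
      (L a) s (F₀ (ea a)) hsL hone hzero
    have g4 := (r₃ (F₁^[s] (F₀ (ea a)))).2
    have e3 : (List.range (m₂.eval (F₁^[s] (F₀ (ea a))) (fun _ => 0))).map
        (fun i => (fun v => gb (φ₂ v))
          (min (t₂.eval (F₁^[s] (F₀ (ea a))) (cons i (fun _ => 0))) K₂)) =
        (eb (f a)).map gb := by
      rw [hfin, ← e₂, wf, List.map_map]
      rfl
    rw [e3] at g4
    refine (g0.seq (g2.seq (g3.seq g4))).mono ?_
    have i0 : T₀ (ea a).length ≤ T₀ ((ea a).length + S a + L a) := hT₀.1 (by omega)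
    have i1 : T₂ (F₀ (ea a)).length ≤ T₂ (L a) := hT₂.1 (hsL 0 (by omega))
    have i1' : T₂ (L a) ≤ T₂ ((ea a).length + S a + L a) := hT₂.1 (by omega)
    have i2 : T₃ (F₁^[s] (F₀ (ea a))).length ≤ T₃ (L a) := hT₃.1 (hsL s le_rfl)
    have i2' : T₃ (L a) ≤ T₃ ((ea a).length + S a + L a) := hT₃.1 (by omega)
    have i4 : T₁ (L a) ≤ T₁ ((ea a).length + S a + L a) := hT₁.1 (by omega)
    have i3 : s * (T₁ (L a) + T₂ (L a) + 1) ≤
        ((ea a).length + S a + L a) * (T₁ ((ea a).length + S a + L a) +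
          T₂ ((ea a).length + S a + L a) + 1) :=
      Nat.mul_le_mul (by omega) (by omega)
    simp only [D]
    omega

end Pool.Agent.CPW
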