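import Pool.Agent.CPW.F.Defs

/-!
# Package FProg: structured programs, with arbitrary time bounds

Copy the proof of `Pool.Agent.PT.polyTime_of_prog` (end of `Pool/Agent/PT/ToTM2.lean`), with
`P.eval (ea x).length` replaced by `τ x` and `Q.eval (ea x).length` by `(out x).length` (the lemmas
`phase1`, `sim`, `phase3`, `initList_mach`, `haltList_mach` used there are public; if some are private,
copy them). The number of steps there is at most
`|x| + 1 + ((2 |x| + 1) + (τ + (2 |out| + 1)) + (|out| + 1)) ≤ 10 (|x| + τ + |out| + 1)`.
-/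

set_option autoImplicit false

namespace Pool.Agent.CPW

open Turing Computability
open Pool.Agent.PT
open Function (update)

theorem runsIn_of_prog {A : Type} [Fintype A] {α β Γ₀ Γ₁ : Type} [Fintype Γ₀] (ea : α → List Γ₀)
    (eb : β → List Γ₁) (f : α → β) (p : Prog A) (g : Γ₀ → A) (d : A → Γ₁) (a₀ : A)
    (out : α → List A) (hout : ∀ x, (out x).map d = eb (f x)) (τ : α → ℕ)
    (h : ∀ x, Runs p (single 0 ((ea x).map g)) (single 1 (out x)) (τ x)) :
    RunsIn ea eb f (fun x => 10 * ((ea x).length + τ x + (out x).length + 1)) := by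
  obtain ⟨n, hn⟩ := p.exists_bdd
  set N := n + 3 with hN
  set p' : Prog A := Prog.seq (mv 1 0) (Prog.seq p (mv 1 2)) with hp'
  have hb : p'.Bdd (N + 2) := by
    refine ⟨⟨by omega, fun a => ?_⟩, hn.mono (by omega), ⟨by omega, fun a => ?_⟩⟩
    · change 0 < N + 2; omega
    · change 2 < N + 2; omega
  have hrun : ∀ x, Runs p' (single 1 ((ea x).map g).reverse) (single 2 (out x).reverse)
      ((2 * (ea x).length + 1) + (τ x + (2 * (out x).length + 1))) := by
    intro x
    have h1 := runs_mv 1 0 (by decide) ((ea x).map g).reverse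
      (single 1 ((ea x).map g).reverse) (by simp [single])
    have h2 := h x
    have h3 := runs_mv 1 2 (by decide) (out x) (single 1 (out x)) (by simp [single])
    have e1 : single 0 ((ea x).map g) = update (update (single 1 ((ea x).map g).reverse) 1 []) 0
        (((ea x).map g).reverse.reverse ++ (single 1 ((ea x).map g).reverse) 0) := by
      funext i
      by_cases hi : i = 0
      · subst hi; simp [single]
      · by_cases hi1 : i = 1
        · subst hi1; simp [single]
        · simp [single, hi]
    have e2 : single 2 (out x).reverse = update (update (single 1 (out x)) 1 []) 2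
        ((out x).reverse ++ (single 1 (out x)) 2) := by
      funext i
      by_cases hi : i = 2
      · subst hi; simp [single]
      · by_cases hi1 : i = 1
        · subst hi1; simp [single]
        · simp [single, hi]
    exact (h1.conv (s'' := single 0 ((ea x).map g)) (T' := 2 * (ea x).length + 1) e1
      (by simp)).seq (h2.seq (h3.conv e2 le_rfl))
  have hsteps : ∀ x, ∃ m ≤ (ea x).length + 1 + ((2 * (ea x).length + 1) +
      (τ x + (2 * (out x).length + 1)) + ((out x).length + 1)),
      (flip bind (mach N p' g d a₀).step)^[m] (some (initList (mach N p' g d a₀) (ea x))) =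
      some (haltList (mach N p' g d a₀) (eb (f x))) := by
    intro x
    rw [initList_mach, haltList_mach]
    obtain ⟨t, ht, hex⟩ := hrun x
    obtain ⟨v1, h1⟩ := phase1 (N := N) p' g d a₀ (by omega) (ea x) none (fun _ => [])
    have e1 : update (fun _ => []) 1 (((ea x).map g).reverse ++ (fun _ => [] : Store A) 1) =
      single 1 ((ea x).map g).reverse := by simp [single]
    rw [e1] at h1
    obtain ⟨v2, h2⟩ := sim (N := N) (Γ₀ := Γ₀) (Γ₁ := Γ₁) hex hb (mcode p' g d a₀)
      (fun l => some (some l)) (some none) (fun l => rfl) v1 [] []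
    have h3 := phase3 (N := N) p' g d a₀ (by omega) (out x).reverse [] v2
      (single 2 (out x).reverse) (by simp [single])
    have e3 : (stk (update (single 2 (out x).reverse) 2 []) [] (((out x).reverse.map d).reverse ++ [])
      : ∀ k : SK N, List (SΓ A Γ₀ Γ₁ N k)) = stk (fun _ => []) [] (eb (f x)) := by
      rw [← hout x]
      congr 1
      · simp [single]
      · simp
    rw [e3] at h3
    refine ⟨_, ?_, RN.trans h1 (RN.trans h2 h3)⟩
    simp only [List.length_reverse]
    omega
  refine ⟨mach N p' g d a₀, Equiv.refl _, Equiv.refl _, fun x => ?_⟩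
  obtain ⟨m, hm, hs⟩ := hsteps x
  refine ⟨⟨⟨m, ?_⟩, ?_⟩⟩
  · have e1 : List.map (Equiv.refl ((mach N p' g d a₀).Γ (mach N p' g d a₀).k₀)).symm (ea x)
        = ea x := List.map_id _
    have e2 : List.map (Equiv.refl ((mach N p' g d a₀).Γ (mach N p' g d a₀).k₁)).symm
        (eb (f x)) = eb (f x) := List.map_id _
    erw [e2, e1]
    exact hs
  · change m ≤ 10 * ((ea x).length + τ x + (out x).length + 1)
    omega

end Pool.Agent.CPW
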